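import Pool.Agent.MP_fcd29e_an.H31.Spec3

/-!
From Bessel potentials to duality.
-/

set_option autoImplicit false

open MeasureTheory Complex Set Filter Topology Metric Pool.Agent.MP_fcd29e_an.H81
  Pool.Agent.MP_fcd29e_an.H31
open scoped ContDiff ComplexConjugate ENNReal NNReal FourierTransform SchwartzMap

namespace Pool.Agent.MP_fcd29e_an.H24

variable {N : ℕ}

theorem ofReal_sq (z : ℂ) : ENNReal.ofReal (‖z‖ ^ 2) = ‖z‖ₑ ^ (2 : ℝ) := by
  rw [ENNReal.ofReal_pow (norm_nonneg _), ofReal_norm, ENNReal.rpow_two]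

/-- The Cauchy–Schwarz inequality. -/
theorem cs2 {a b : E N → ℂ} (ha : AEStronglyMeasurable a volume)
    (hb : AEStronglyMeasurable b volume) :
    ENNReal.ofReal (‖∫ x, a x * b x‖ ^ 2) ≤ N2 a * N2 b := by
  have h1 : ‖∫ x, a x * b x‖ₑ ≤ ∫⁻ x, ((fun x => ‖a x‖ₑ) * fun x => ‖b x‖ₑ) x := by
    refine (enorm_integral_le_lintegral_enorm _).trans (le_of_eq ?_)
    exact lintegral_congr fun x => by simp [enorm_mul]
  have h2 := ENNReal.lintegral_mul_le_Lp_mul_Lq volume Real.HolderConjugate.two_two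
    ha.enorm hb.enorm
  have h3 := ENNReal.rpow_le_rpow (h1.trans h2) (show (0 : ℝ) ≤ 2 by norm_num)
  rw [ENNReal.mul_rpow_of_nonneg _ _ (by norm_num), ← ENNReal.rpow_mul, ← ENNReal.rpow_mul] at h3
  norm_num at h3
  simp only [N2, ofReal_sq]
  simpa using h3

theorem n2_lt {a : E N → ℂ} (ha : MemLp a 2 volume) : N2 a < ⊤ := by
  have := lintegral_rpow_enorm_lt_top_of_eLpNorm_lt_top (by norm_num) (by norm_num) ha.2
  simpa [N2, ofReal_sq] using this

theorem eq1' : StmtEQ1 := by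
  intro N s g h hs
  obtain ⟨u, hu⟩ := TemperedDistribution.memSobolev_iff_exists_smulLeftCLM_fourier.mp hs
  refine ⟨h, (N2 (u : E N → ℂ)).toNNReal, fun ψ hψ => ?_⟩
  rw [ENNReal.coe_toNNReal (n2_lt (Lp.memLp u)).ne]
  set Ψ : 𝓢(E N, ℂ) := hψ.2.toSchwartzMap hψ.1 with hΨ
  have hc : (Ψ : E N → ℂ) = ψ := rfl
  have t1 : (fun x : E N => (((1 + ‖x‖ ^ 2) ^ (s / 2) : ℝ) : ℂ)).HasTemperateGrowth := by fun_prop
  have t2 : (fun x : E N => (((1 + ‖x‖ ^ 2) ^ (-s / 2) : ℝ) : ℂ)).HasTemperateGrowth := by fun_prop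
  set φ : 𝓢(E N, ℂ) := SchwartzMap.smulLeftCLM ℂ
    (fun x : E N => (((1 + ‖x‖ ^ 2) ^ (-s / 2) : ℝ) : ℂ)) (𝓕⁻ Ψ) with hφ
  have hφa : ∀ x, φ x = (((1 + ‖x‖ ^ 2) ^ (-s / 2) : ℝ) : ℂ) * 𝓕 ψ (-x) := by
    intro x
    rw [hφ, SchwartzMap.smulLeftCLM_apply_apply t2, SchwartzMap.fourierInv_coe, hc,
      Real.fourierInv_eq_fourier_neg, smul_eq_mul]
  have e1 : SchwartzMap.smulLeftCLM ℂ (fun x : E N => (((1 + ‖x‖ ^ 2) ^ (s / 2) : ℝ) : ℂ)) φ
      = 𝓕⁻ Ψ := by
    ext x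
    rw [SchwartzMap.smulLeftCLM_apply_apply t1, hφ, SchwartzMap.smulLeftCLM_apply_apply t2,
      smul_smul, ← ofReal_mul, ← Real.rpow_add (by positivity)]
    rw [show s / 2 + -s / 2 = 0 by ring]; simp
  have e2 := congrArg (fun T : 𝓢'(E N, ℂ) => T φ) hu
  simp only [TemperedDistribution.smulLeftCLM_apply_apply, e1, TemperedDistribution.fourier_apply,
    FourierTransform.fourier_fourierInv_eq, Lp.toTemperedDistribution_apply] at e2
  have e3 : ∫ x, g x * ψ x = ∫ x, u x * φ x := by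
    calc ∫ x, g x * ψ x = ∫ x, Ψ x • (h.toLp g : E N → ℂ) x := by
          refine integral_congr_ae ?_
          filter_upwards [h.coeFn_toLp] with x hx
          rw [hx, hc, smul_eq_mul, mul_comm]
      _ = ∫ x, φ x • u x := e2
      _ = _ := by simp [mul_comm]
  have e4 : N2 φ = FN s ψ := by
    unfold N2 FN
    rw [← lintegral_neg_eq_self]
    refine lintegral_congr fun x => ?_
    rw [hφa, neg_neg, norm_neg, norm_mul, mul_pow, norm_real, Real.norm_eq_abs, sq_abs,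
      ← Real.rpow_mul_natCast (by positivity)]
    congr 3
    push_cast; ring
  rw [e3, ← e4]
  exact cs2 (Lp.memLp u).1 φ.continuous.aestronglyMeasurable

theorem eq1 (_h : StmtFA) : StmtEQ1 := eq1'

end Pool.Agent.MP_fcd29e_an.H24
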